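import Mathlib

/-!
# MP_0fcb7f : orders of products of two class transpositions

The set of the finite orders of products of two class transpositions is finite.
-/

namespace Pool.Agent.Results.MP_0fcb7f_al.FiniteOrders

/-- `IsClassTransposition r₁ m₁ r₂ m₂ τ`: the two residue classes `r₁(m₁)` and `r₂(m₂)`
(with `0 ≤ rᵢ < mᵢ`) are disjoint, `τ` interchanges `r₁ + k m₁` and `r₂ + k m₂` for every
integer `k`, and `τ` fixes every integer outside of the two classes. -/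
def IsClassTransposition (r₁ m₁ r₂ m₂ : ℤ) (τ : Equiv.Perm ℤ) : Prop :=
  0 ≤ r₁ ∧ r₁ < m₁ ∧ 0 ≤ r₂ ∧ r₂ < m₂ ∧
    (∀ k l : ℤ, r₁ + k * m₁ ≠ r₂ + l * m₂) ∧
    (∀ k : ℤ, τ (r₁ + k * m₁) = r₂ + k * m₂) ∧
    (∀ k : ℤ, τ (r₂ + k * m₂) = r₁ + k * m₁) ∧
    (∀ x : ℤ, (∀ k : ℤ, x ≠ r₁ + k * m₁) → (∀ k : ℤ, x ≠ r₂ + k * m₂) → τ x = x)

/-- Internal form of a class transposition. -/
structure CT where
  r : Bool → ℤ
  m : Bool → ℤ
  pos : ∀ b, 0 < m b
  disj : ∀ k l : ℤ, r true + k * m true ≠ r false + l * m false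
  τ : Equiv.Perm ℤ
  swap : ∀ b k, τ (r b + k * m b) = r (!b) + k * m (!b)
  fix : ∀ x, (∀ b k, x ≠ r b + k * m b) → τ x = x

/-- `x` lies in the class number `b`. -/
def CT.Mem (c : CT) (b : Bool) (x : ℤ) : Prop := ∃ k, x = c.r b + k * c.m b

theorem exists_ct {r₁ m₁ r₂ m₂ : ℤ} {τ : Equiv.Perm ℤ}
    (h : IsClassTransposition r₁ m₁ r₂ m₂ τ) : ∃ c : CT, c.τ = τ := by
  obtain ⟨h1, h2, h3, h4, h5, h6, h7, h8⟩ := h
  refine ⟨⟨fun b => if b then r₁ else r₂, fun b => if b then m₁ else m₂, ?_, ?_, τ, ?_, ?_⟩, rfl⟩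
  · intro b
    cases b
    · simp; omega
    · simp; omega
  · simpa using h5
  · intro b k
    cases b
    · simpa using h7 k
    · simpa using h6 k
  · intro x hx
    exact h8 x (by simpa using hx true) (by simpa using hx false)

theorem CT.mem_swap (c : CT) {b : Bool} {x : ℤ} (h : c.Mem b x) : c.Mem (!b) (c.τ x) := by
  obtain ⟨k, rfl⟩ := h
  exact ⟨k, c.swap b k⟩

theorem CT.mem_unique (c : CT) {b b' : Bool} {x : ℤ} (h : c.Mem b x) (h' : c.Mem b' x) :
    b = b' := by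
  obtain ⟨k, hk⟩ := h
  obtain ⟨l, hl⟩ := h'
  have := c.disj k l
  have := c.disj l k
  cases b <;> cases b' <;> simp_all

theorem CT.mem_of_ne (c : CT) {x : ℤ} (h : c.τ x ≠ x) : ∃ b, c.Mem b x := by
  by_contra hcon
  apply h
  apply c.fix
  intro b k hk
  exact hcon ⟨b, k, hk⟩

theorem CT.invol (c : CT) (x : ℤ) : c.τ (c.τ x) = x := by
  by_cases h : c.τ x = x
  · rw [h, h]
  · obtain ⟨b, k, hk⟩ := c.mem_of_ne h
    rw [hk, c.swap, c.swap]
    simp

theorem CT.mul_self (c : CT) : c.τ * c.τ = 1 := by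
  ext x
  simp [Equiv.Perm.mul_apply, c.invol]

theorem CT.scale (c : CT) {b : Bool} {x y : ℤ} (hx : c.Mem b x) (hy : c.Mem b y) :
    c.m b * (c.τ x - c.τ y) = c.m (!b) * (x - y) := by
  obtain ⟨k, rfl⟩ := hx
  obtain ⟨l, rfl⟩ := hy
  rw [c.swap, c.swap]
  ring

/-- There is a prime separating the two classes. -/
theorem CT.exists_norm (c : CT) : ∃ (h : ℤ → ℚ) (t : ℚ), 0 < t ∧
    (∀ x y, h (x * y) = h x * h y) ∧ (∀ x, x ≠ 0 → 0 < h x) ∧
    (∀ x y b b', c.Mem b x → c.Mem b' y → (h (x - y) ≤ t ↔ b = b')) := by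
  have hndvd : ¬ ((Int.gcd (c.m true) (c.m false) : ℤ) ∣ c.r true - c.r false) := by
    rintro ⟨q, hq⟩
    have hb := Int.gcd_eq_gcd_ab (c.m true) (c.m false)
    apply c.disj (-(Int.gcdA (c.m true) (c.m false) * q)) (Int.gcdB (c.m true) (c.m false) * q)
    rw [hb] at hq
    linear_combination hq
  have hpp : ∃ p e : ℕ, p.Prime ∧ ((p : ℤ) ^ e ∣ (Int.gcd (c.m true) (c.m false) : ℤ)) ∧
      ¬ ((p : ℤ) ^ e ∣ c.r true - c.r false) := by
    by_contra hcon
    push Not at hcon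
    apply hndvd
    rw [Int.natCast_dvd]
    rw [Nat.dvd_iff_prime_pow_dvd_dvd]
    intro p k hp hpk
    have := hcon p k hp (by exact_mod_cast hpk)
    rw [← Int.natCast_pow] at this
    exact Int.natCast_dvd.1 this
  obtain ⟨p, e, hp, hpe, hne⟩ := hpp
  have : Fact p.Prime := ⟨hp⟩
  have hdm : ∀ b, (p : ℤ) ^ e ∣ c.m b := by
    intro b
    cases b
    · exact hpe.trans (Int.gcd_dvd_right _ _)
    · exact hpe.trans (Int.gcd_dvd_left _ _)
  refine ⟨fun x => padicNorm p (x : ℚ), (p : ℚ) ^ (-(e : ℤ)), ?_, ?_, ?_, ?_⟩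
  · have : (0 : ℚ) < p := by exact_mod_cast hp.pos
    positivity
  · intro x y
    push_cast
    exact padicNorm.mul _ _
  · intro x hx
    have hx' : (x : ℚ) ≠ 0 := by exact_mod_cast hx
    exact lt_of_le_of_ne (padicNorm.nonneg _) (Ne.symm (padicNorm.nonzero hx'))
  · intro x y b b' hx hy
    have key : (padicNorm p ((x - y : ℤ) : ℚ) ≤ (p : ℚ) ^ (-(e : ℤ)) ↔ ((p ^ e : ℕ) : ℤ) ∣ x - y) :=
      (padicNorm.dvd_iff_norm_le).symm
    rw [key]
    push_cast
    obtain ⟨k, rfl⟩ := hx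
    obtain ⟨l, rfl⟩ := hy
    constructor
    · intro hd
      by_contra hbb
      apply hne
      have h1 : (p : ℤ) ^ e ∣ c.r b - c.r b' := by
        have : c.r b - c.r b' = (c.r b + k * c.m b - (c.r b' + l * c.m b')) - k * c.m b
          + l * c.m b' := by ring
        rw [this]
        exact (hd.sub (Dvd.dvd.mul_left (hdm b) k)).add (Dvd.dvd.mul_left (hdm b') l)
      cases b <;> cases b'
      · exact absurd rfl hbb
      · have := h1.neg_right
        simpa using this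
      · exact h1
      · exact absurd rfl hbb
    · rintro rfl
      have : c.r b + k * c.m b - (c.r b + l * c.m b) = (k - l) * c.m b := by ring
      rw [this]
      exact Dvd.dvd.mul_left (hdm b) _

/-- Neutral and switching edges of `c'` with respect to `c`. -/
theorem exists_kappa (c c' : CT) : ∃ κ : Bool, ∀ (u v : ℤ) (i k : Bool),
    c'.Mem true u → c'.Mem true v → c.Mem i u → c.Mem i (c'.τ u) → c.Mem k v →
    c.Mem (!k) (c'.τ v) → k = (i ^^ κ) := by
  obtain ⟨h, t, ht, hmul, hpos, hiff⟩ := c.exists_norm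
  have hT := hpos _ (c'.pos true).ne'
  have hF := hpos _ (c'.pos false).ne'
  refine ⟨decide (h (c'.m false) < h (c'.m true)), ?_⟩
  intro u v i k hu hv hiu hiu' hkv hkv'
  have hsc := c'.scale hu hv
  have hsc' : h (c'.m true) * h (c'.τ u - c'.τ v) = h (c'.m false) * h (u - v) := by
    rw [← hmul, ← hmul, hsc]; rfl
  have h1 := hiff u v i k hiu hkv
  have h2 := hiff (c'.τ u) (c'.τ v) i (!k) hiu' hkv'
  by_cases hik : i = k
  · have h3 : h (u - v) ≤ t := h1.2 hik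
    have h4 : t < h (c'.τ u - c'.τ v) := by
      by_contra hcon
      have := h2.1 (not_lt.1 hcon)
      subst hik
      cases i <;> simp at this
    have h5 : ¬ (h (c'.m false) < h (c'.m true)) := by
      intro h6
      nlinarith
    subst hik
    simp [h5]
  · have hk : k = !i := by
      cases i <;> cases k <;> simp_all
    have h3 : t < h (u - v) := by
      by_contra hcon
      exact hik (h1.1 (not_lt.1 hcon))
    have h4 : h (c'.τ u - c'.τ v) ≤ t := h2.2 (by subst hk; simp)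
    have h5 : h (c'.m false) < h (c'.m true) := by
      by_contra h6
      have h7 := not_lt.1 h6
      nlinarith
    subst hk
    simp [h5]

/-! ### Squares -/

/-- Intersection of two progressions. -/
theorem inter_prog (p P d M : ℤ) (hP : 0 < P) (hM : 0 < M) (k₀ l₀ : ℤ)
    (h0 : p + k₀ * P = d + l₀ * M) :
    ∃ P' M' : ℤ, 0 < P' ∧ 0 < M' ∧ ∀ k l : ℤ, p + k * P = d + l * M ↔
      ∃ j, k = k₀ + j * M' ∧ l = l₀ + j * P' := by
  obtain ⟨g, P', M', hg, hcop, hP', hM'⟩ : ∃ g P' M' : ℤ, 0 < g ∧ IsCoprime P' M' ∧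
      P = P' * g ∧ M = M' * g := by
    have hgpos : 0 < Int.gcd P M := Int.gcd_pos_of_ne_zero_left _ hP.ne'
    obtain ⟨P', hP'⟩ := Int.gcd_dvd_left P M
    obtain ⟨M', hM'⟩ := Int.gcd_dvd_right P M
    refine ⟨Int.gcd P M, P / Int.gcd P M, M / Int.gcd P M, by exact_mod_cast hgpos, ?_, ?_, ?_⟩
    · exact (Int.isCoprime_iff_gcd_eq_one.2 (Int.gcd_div_gcd_div_gcd hgpos))
    · rw [Int.ediv_mul_cancel (Int.gcd_dvd_left P M)]
    · rw [Int.ediv_mul_cancel (Int.gcd_dvd_right P M)]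
  have hP'pos : 0 < P' := by
    by_contra hcon
    have : P' * g ≤ 0 := mul_nonpos_of_nonpos_of_nonneg (not_lt.1 hcon) hg.le
    omega
  have hM'pos : 0 < M' := by
    by_contra hcon
    have : M' * g ≤ 0 := mul_nonpos_of_nonpos_of_nonneg (not_lt.1 hcon) hg.le
    omega
  refine ⟨P', M', hP'pos, hM'pos, ?_⟩
  intro k l
  constructor
  · intro h
    have h1 : (k - k₀) * P' = (l - l₀) * M' := by
      have : ((k - k₀) * P') * g = ((l - l₀) * M') * g := by
        rw [hP', hM'] at h h0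
        linear_combination h - h0
      exact mul_right_cancel₀ hg.ne' this
    have h2 : M' ∣ (k - k₀) * P' := ⟨l - l₀, by rw [h1]; ring⟩
    have h3 : M' ∣ (k - k₀) := hcop.symm.dvd_of_dvd_mul_right h2
    obtain ⟨j, hj⟩ := h3
    refine ⟨j, by linear_combination hj, ?_⟩
    have h4 : (j * P') * M' = (l - l₀) * M' := by
      rw [← h1, hj]; ring
    have := mul_right_cancel₀ hM'pos.ne' h4
    linear_combination -this
  · rintro ⟨j, rfl, rfl⟩
    rw [hP', hM'] at h0 ⊢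
    linear_combination h0

/-- `Real c c' w x`: starting at `x` and applying alternately `c` and `c'`, the point is
successively in the classes given by the word `w`. -/
def Real (c c' : CT) : List Bool → ℤ → Prop
  | [], _ => True
  | b :: w, x => c.Mem b x ∧ Real c' c w (c.τ x)

/-- endpoint -/
def act (c c' : CT) : List Bool → ℤ → ℤ
  | [], x => x
  | _ :: w, x => act c' c w (c.τ x)

theorem real_prog (w : List Bool) : ∀ (c c' : CT) (x₀ : ℤ), Real c c' w x₀ →
    ∃ d M e M' : ℤ, 0 < M ∧ 0 < M' ∧ (∀ x, Real c c' w x ↔ ∃ k, x = d + k * M) ∧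
      ∀ k, act c c' w (d + k * M) = e + k * M' := by
  induction w with
  | nil =>
    intro c c' x₀ _
    exact ⟨0, 1, 0, 1, one_pos, one_pos, fun x => ⟨fun _ => ⟨x, by ring⟩, fun _ => trivial⟩,
      fun k => by simp [act]⟩
  | cons b w ih =>
    intro c c' x₀ h
    obtain ⟨⟨k₀, hk₀⟩, h2⟩ := h
    obtain ⟨d, M, e, M', hM, hM', h3, h4⟩ := ih c' c _ h2
    obtain ⟨l₀, hl₀⟩ := (h3 _).1 h2
    rw [hk₀, c.swap] at hl₀
    obtain ⟨P', Q', hP', hQ', h5⟩ := inter_prog _ _ _ _ (c.pos (!b)) hM k₀ l₀ hl₀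
    refine ⟨c.r b + k₀ * c.m b, Q' * c.m b, e + l₀ * M', P' * M', mul_pos hQ' (c.pos b),
      mul_pos hP' hM', ?_, ?_⟩
    · intro x
      constructor
      · rintro ⟨⟨k, rfl⟩, h6⟩
        obtain ⟨l, hl⟩ := (h3 _).1 h6
        rw [c.swap] at hl
        obtain ⟨j, hj, _⟩ := (h5 k l).1 hl
        exact ⟨j, by rw [hj]; ring⟩
      · rintro ⟨j, rfl⟩
        have h6 : c.r b + k₀ * c.m b + j * (Q' * c.m b) = c.r b + (k₀ + j * Q') * c.m b := by ring
        rw [h6]
        refine ⟨⟨_, rfl⟩, ?_⟩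
        rw [c.swap]
        exact (h3 _).2 ⟨l₀ + j * P', (h5 _ _).2 ⟨j, rfl, rfl⟩⟩
    · intro j
      have h6 : c.r b + k₀ * c.m b + j * (Q' * c.m b) = c.r b + (k₀ + j * Q') * c.m b := by ring
      rw [h6]
      simp only [act]
      rw [c.swap, (h5 _ _).2 ⟨j, rfl, rfl⟩, h4]
      ring

/-- A permutation acting affinely on a class that meets its image, of finite order, fixes the
class pointwise. -/
theorem fixed_of_pow_eq_one (Q : Equiv.Perm ℤ) (d M e M' : ℤ) (hM : 0 < M) (hM' : 0 < M')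
    (hQ : ∀ k, Q (d + k * M) = e + k * M') (k₀ l₀ : ℤ) (h0 : e + k₀ * M' = d + l₀ * M)
    (n : ℕ) (hn : 0 < n) (hQn : Q ^ n = 1) (k : ℤ) : Q (d + k * M) = d + k * M := by
  obtain ⟨g, s, t, hg, hcop, hs, ht⟩ : ∃ g s t : ℤ, 0 < g ∧ IsCoprime s t ∧
      M' = s * g ∧ M = t * g := by
    have hgpos : 0 < Int.gcd M' M := Int.gcd_pos_of_ne_zero_left _ hM'.ne'
    refine ⟨Int.gcd M' M, M' / Int.gcd M' M, M / Int.gcd M' M, by exact_mod_cast hgpos, ?_, ?_, ?_⟩
    · exact (Int.isCoprime_iff_gcd_eq_one.2 (Int.gcd_div_gcd_div_gcd hgpos))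
    · rw [Int.ediv_mul_cancel (Int.gcd_dvd_left M' M)]
    · rw [Int.ediv_mul_cancel (Int.gcd_dvd_right M' M)]
  have hspos : 0 < s := by
    by_contra hcon
    have : s * g ≤ 0 := mul_nonpos_of_nonpos_of_nonneg (not_lt.1 hcon) hg.le
    omega
  have htpos : 0 < t := by
    by_contra hcon
    have : t * g ≤ 0 := mul_nonpos_of_nonpos_of_nonneg (not_lt.1 hcon) hg.le
    omega
  -- `e ≡ d` modulo `g`
  obtain ⟨q, hq⟩ : ∃ q, e = d + q * g := ⟨l₀ * t - k₀ * s, by
    rw [hs, ht] at h0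
    linear_combination h0⟩
  have claim : ∀ N : ℕ, ∃ a b a' : ℤ, a = d + b * g ∧
      ∀ j : ℤ, (Q ^ (N + 1)) (a + j * (t ^ (N + 1) * g)) = a' + j * (s ^ (N + 1) * g) := by
    intro N
    induction N with
    | zero =>
      refine ⟨d, 0, e, by ring, ?_⟩
      intro j
      have := hQ j
      rw [ht, hs] at this
      simpa using this
    | succ N ih =>
      obtain ⟨a, b, a', ha, hj⟩ := ih
      -- solve `e + k s g = a + j t^(N+1) g`
      have hc : IsCoprime s (t ^ (N + 1)) := hcop.pow_right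
      obtain ⟨x, y, hxy⟩ := hc
      -- x * s + y * t^(N+1) = 1
      have hk0 : e + ((b - q) * x) * (s * g) = a + (-((b - q) * y)) * (t ^ (N + 1) * g) := by
        rw [hq, ha]
        linear_combination (b - q) * g * hxy
      refine ⟨d + ((b - q) * x) * (t * g), ((b - q) * x) * t, a' + (-((b - q) * y)) * (s ^ (N + 1) * g),
        by ring, ?_⟩
      intro j
      rw [pow_succ Q (N + 1), Equiv.Perm.mul_apply]
      have h1 : d + (b - q) * x * (t * g) + j * (t ^ (N + 1 + 1) * g) =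
          d + ((b - q) * x + j * t ^ (N + 1)) * M := by
        rw [ht]; ring
      rw [h1, hQ]
      have h2 : e + ((b - q) * x + j * t ^ (N + 1)) * M' =
          a + (-((b - q) * y) + j * s) * (t ^ (N + 1) * g) := by
        rw [hs]
        linear_combination hk0
      rw [h2, hj]
      ring
  obtain ⟨N, rfl⟩ : ∃ N, n = N + 1 := ⟨n - 1, by omega⟩
  obtain ⟨a, b, a', _, hj⟩ := claim N
  rw [hQn] at hj
  have e0 := hj 0
  have e1 := hj 1
  simp only [Equiv.Perm.coe_one, id_eq] at e0 e1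
  have e2 : t ^ (N + 1) * g = s ^ (N + 1) * g := by linear_combination e1 - e0
  have e3 : t ^ (N + 1) = s ^ (N + 1) := mul_right_cancel₀ hg.ne' e2
  have e4 : t = s := by
    rcases lt_trichotomy t s with h' | h' | h'
    · exact absurd e3 (ne_of_lt (pow_lt_pow_left₀ h' htpos.le (by omega)))
    · exact h'
    · exact absurd e3 (ne_of_gt (pow_lt_pow_left₀ h' hspos.le (by omega)))
  subst e4
  have e5 : IsUnit t := isCoprime_self.1 hcop
  have e6 : t = 1 := by
    rcases Int.isUnit_iff.1 e5 with h | h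
    · exact h
    · omega
  subst e6
  have hMg : M = g := by rw [ht]; ring
  have hM'g : M' = g := by rw [hs]; ring
  -- now a translation
  have tr : ∀ (N : ℕ) (k : ℤ), (Q ^ N) (d + k * M) = d + (k + N * q) * M := by
    intro N
    induction N with
    | zero => intro k; simp
    | succ N ih =>
      intro k
      rw [pow_succ, Equiv.Perm.mul_apply, hQ]
      have : e + k * M' = d + (k + q) * M := by rw [hq, hM'g, hMg]; ring
      rw [this, ih]
      push_cast
      ring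
  have h7 := tr (N + 1) 0
  rw [hQn] at h7
  simp only [Equiv.Perm.coe_one, id_eq] at h7
  have h8 : ((N + 1 : ℕ) : ℤ) * q * M = 0 := by linear_combination -h7
  have h9 : q = 0 := by
    rcases mul_eq_zero.1 h8 with h | h
    · rcases mul_eq_zero.1 h with h | h
      · exfalso
        have : ((N + 1 : ℕ) : ℤ) ≠ 0 := by exact_mod_cast Nat.succ_ne_zero N
        exact this h
      · exact h
    · omega
  rw [hQ, hq, h9, hM'g, hMg]
  ring

theorem act_append (u : List Bool) : ∀ (c c' : CT) (v : List Bool) (x : ℤ), Even u.length →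
    act c c' (u ++ v) x = act c c' v (act c c' u x) := by
  intro c c' v x hu
  obtain ⟨n, hn⟩ := hu
  induction n generalizing u x with
  | zero =>
    have : u = [] := List.length_eq_zero_iff.1 (by omega)
    subst this
    rfl
  | succ n ih =>
    match u, hn with
    | [], hn => exfalso; simp only [List.length_nil] at hn; omega
    | [_], hn => exfalso; simp only [List.length_singleton] at hn; omega
    | a :: b :: u, hn =>
      simp only [List.cons_append, act]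
      exact ih u _ (by simp at hn; omega)

theorem act_eq_pow (u : List Bool) (n : ℕ) (hn : u.length = n + n) (c c' : CT) (x : ℤ) :
    act c c' u x = ((c'.τ * c.τ) ^ n) x := by
  induction n generalizing u x with
  | zero =>
    have : u = [] := List.length_eq_zero_iff.1 (by omega)
    subst this
    rfl
  | succ n ih =>
    match u, hn with
    | [], hn => exfalso; simp only [List.length_nil] at hn; omega
    | [_], hn => exfalso; simp only [List.length_singleton] at hn; omega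
    | a :: b :: u, hn =>
      simp only [act]
      rw [ih u (by simp at hn; omega), pow_succ, Equiv.Perm.mul_apply, Equiv.Perm.mul_apply]

/-- A realised square. -/
theorem square (c c' : CT) (u : List Bool) (n : ℕ) (hu : u.length = n + n) (x : ℤ)
    (h1 : Real c c' u x) (h2 : Real c c' u (((c'.τ * c.τ) ^ n) x))
    (N : ℕ) (hN : 0 < N) (hfin : (c'.τ * c.τ) ^ N = 1) : ((c'.τ * c.τ) ^ n) x = x := by
  obtain ⟨d, M, e, M', hM, hM', h3, h4⟩ := real_prog u c c' x h1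
  obtain ⟨k, hk⟩ := (h3 _).1 h1
  obtain ⟨l, hl⟩ := (h3 _).1 h2
  have h5 : ∀ k, ((c'.τ * c.τ) ^ n) (d + k * M) = e + k * M' := by
    intro k
    rw [← act_eq_pow u n hu, h4]
  have h6 : ((c'.τ * c.τ) ^ n) ^ N = 1 := by
    rw [← pow_mul, mul_comm, pow_mul, hfin, one_pow]
  rw [hk]
  refine fixed_of_pow_eq_one _ d M e M' hM hM' h5 k l ?_ N hN h6 k
  rw [← h5, ← hk, hl]

/-! ### Paths -/

/-- The path starting at `x` by applying alternately `c` and `c'`. -/
def path (c c' : CT) : ℕ → ℤ → ℤ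
  | 0, x => x
  | n + 1, x => path c' c n (c.τ x)

theorem exists_word (L : ℕ) : ∀ (c c' : CT) (x : ℤ),
    (∀ m < L, path c c' (m + 1) x ≠ path c c' m x) → ∃ w : List Bool, w.length = L ∧
      Real c c' w x := by
  induction L with
  | zero => intro c c' x _; exact ⟨[], rfl, trivial⟩
  | succ L ih =>
    intro c c' x h
    obtain ⟨b, hb⟩ := c.mem_of_ne (h 0 (by omega))
    obtain ⟨w, hw, hr⟩ := ih c' c (c.τ x) (fun m hm => h (m + 1) (by omega))
    exact ⟨b :: w, by simp [hw], hb, hr⟩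

theorem swap_pow {G : Type*} [Group G] (a b : G) (m : ℕ) :
    (a * b) ^ m * a = a * (b * a) ^ m := by
  induction m with
  | zero => simp
  | succ m ih =>
    rw [pow_succ' (a * b), pow_succ' (b * a), mul_assoc, ih]
    simp only [mul_assoc]

theorem path_end (m : ℕ) : ∀ (c c' : CT) (x : ℤ), path c c' (m + 1) x = path c c' m x →
    c.τ x = ((c'.τ * c.τ) ^ m) x := by
  induction m with
  | zero => intro c c' x h; simpa [path] using h
  | succ m ih =>
    intro c c' x h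
    have h1 := ih c' c (c.τ x) h
    have h2 : c'.τ (c.τ x) = c.τ (((c'.τ * c.τ) ^ m) x) := by
      rw [h1, ← Equiv.Perm.mul_apply, swap_pow, Equiv.Perm.mul_apply]
    rw [pow_succ', Equiv.Perm.mul_apply, Equiv.Perm.mul_apply, ← h2, c'.invol]

theorem exists_kappa' (c c' : CT) : ∃ κ : Bool, ∀ (y z : ℤ) (s a s₂ b : Bool),
    c'.Mem s y → c.Mem a y → c.Mem a (c'.τ y) →
    c'.Mem s₂ z → c.Mem b z → c.Mem (!b) (c'.τ z) → (b ^^ !s₂) = (a ^^ κ) := by
  obtain ⟨κ, hκ⟩ := exists_kappa c c'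
  refine ⟨κ, ?_⟩
  intro y z s a s₂ b h1 h2 h3 h4 h5 h6
  have hu : ∃ u, c'.Mem true u ∧ c.Mem a u ∧ c.Mem a (c'.τ u) := by
    cases s
    · exact ⟨c'.τ y, c'.mem_swap h1, h3, by rw [c'.invol]; exact h2⟩
    · exact ⟨y, h1, h2, h3⟩
  obtain ⟨u, hu1, hu2, hu3⟩ := hu
  cases s₂
  · have := hκ u (c'.τ z) a (!b) hu1 (c'.mem_swap h4) hu2 hu3 h6 (by
      rw [c'.invol, Bool.not_not]; exact h5)
    rw [← this]; simp
  · have := hκ u z a b hu1 h4 hu2 hu3 h5 h6
    rw [← this]; simp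

/-- The condition on two edges, one neutral and one switching. -/
def cond (κ a s a' b s₂ b' : Bool) : Bool :=
  !(a' == a) || !(b' == !b) || ((b ^^ !s₂) == (a ^^ κ))

theorem comb : ∀ κ κ' s0 s1 s2 s3 s4 s5 s6 s7 : Bool,
    (cond κ (!s0) s1 s2 (!s2) s3 s4 && cond κ (!s0) s1 s2 (!s4) s5 s6 &&
     cond κ (!s2) s3 s4 (!s0) s1 s2 && cond κ (!s2) s3 s4 (!s4) s5 s6 &&
     cond κ (!s4) s5 s6 (!s0) s1 s2 && cond κ (!s4) s5 s6 (!s2) s3 s4 &&
     cond κ' (!s1) s2 s3 (!s3) s4 s5 && cond κ' (!s1) s2 s3 (!s5) s6 s7 &&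
     cond κ' (!s3) s4 s5 (!s1) s2 s3 && cond κ' (!s3) s4 s5 (!s5) s6 s7 &&
     cond κ' (!s5) s6 s7 (!s1) s2 s3 && cond κ' (!s5) s6 s7 (!s3) s4 s5) = true →
    ((s0 == s2 && s1 == s3) || (s2 == s4 && s3 == s5) || (s4 == s6 && s5 == s7) ||
      (s0 == s4 && s1 == s5 && s2 == s6 && s3 == s7)) = true := by
  decide +kernel

theorem cond_true {c c' : CT} {κ : Bool} (hκ : ∀ (y z : ℤ) (s a s₂ b : Bool),
    c'.Mem s y → c.Mem a y → c.Mem a (c'.τ y) →
    c'.Mem s₂ z → c.Mem b z → c.Mem (!b) (c'.τ z) → (b ^^ !s₂) = (a ^^ κ))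
    {y z : ℤ} {s a a' s₂ b b' : Bool} (h1 : c'.Mem s y) (h2 : c.Mem a y)
    (h3 : c.Mem a' (c'.τ y)) (h4 : c'.Mem s₂ z) (h5 : c.Mem b z) (h6 : c.Mem b' (c'.τ z)) :
    cond κ a s a' b s₂ b' = true := by
  unfold cond
  by_cases ha : a' = a
  · by_cases hb : b' = !b
    · subst ha hb
      have := hκ y z s a' s₂ b h1 h2 h3 h4 h5 h6
      simp [this]
    · simp [hb]
  · simp [ha]

theorem short (c c' : CT) (N : ℕ) (hN : 0 < N) (hfin : (c'.τ * c.τ) ^ N = 1) (x : ℤ) :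
    (∃ m < 8, path c c' (m + 1) x = path c c' m x) ∨ ((c'.τ * c.τ) ^ 2) x = x := by
  by_cases hcase : ∃ m < 8, path c c' (m + 1) x = path c c' m x
  · exact Or.inl hcase
  right
  push Not at hcase
  obtain ⟨w, hw, hr⟩ := exists_word 8 c c' x hcase
  obtain ⟨s0, s1, s2, s3, s4, s5, s6, s7, rfl⟩ : ∃ s0 s1 s2 s3 s4 s5 s6 s7 : Bool,
      w = [s0, s1, s2, s3, s4, s5, s6, s7] := by
    match w, hw with
    | [s0, s1, s2, s3, s4, s5, s6, s7], _ => exact ⟨s0, s1, s2, s3, s4, s5, s6, s7, rfl⟩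
  simp only [Real] at hr
  obtain ⟨h0, h1, h2, h3, h4, h5, h6, h7, _⟩ := hr
  obtain ⟨κ, hκ⟩ := exists_kappa' c c'
  obtain ⟨κ', hκ'⟩ := exists_kappa' c' c
  have g0 := c.mem_swap h0
  have g1 := c'.mem_swap h1
  have g2 := c.mem_swap h2
  have g3 := c'.mem_swap h3
  have g4 := c.mem_swap h4
  have g5 := c'.mem_swap h5
  have key := comb κ κ' s0 s1 s2 s3 s4 s5 s6 s7 (by
    rw [cond_true hκ h1 g0 h2 h3 g2 h4, cond_true hκ h1 g0 h2 h5 g4 h6,
      cond_true hκ h3 g2 h4 h1 g0 h2, cond_true hκ h3 g2 h4 h5 g4 h6,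
      cond_true hκ h5 g4 h6 h1 g0 h2, cond_true hκ h5 g4 h6 h3 g2 h4,
      cond_true hκ' h2 g1 h3 h4 g3 h5, cond_true hκ' h2 g1 h3 h6 g5 h7,
      cond_true hκ' h4 g3 h5 h2 g1 h3, cond_true hκ' h4 g3 h5 h6 g5 h7,
      cond_true hκ' h6 g5 h7 h2 g1 h3, cond_true hκ' h6 g5 h7 h4 g3 h5]
    rfl)
  simp only [Bool.or_eq_true, Bool.and_eq_true, beq_iff_eq] at key
  have two : ∀ z : ℤ, ((c'.τ * c.τ) ^ 1) z = z → ((c'.τ * c.τ) ^ 2) z = z := by
    intro z hz
    rw [pow_one] at hz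
    rw [pow_two, Equiv.Perm.mul_apply, hz, hz]
  rcases key with ((⟨e0, e1⟩ | ⟨e0, e1⟩) | ⟨e0, e1⟩) | ⟨⟨⟨e0, e1⟩, e2⟩, e3⟩
  · apply two
    subst e0 e1
    exact square c c' [s0, s1] 1 rfl x ⟨h0, h1, trivial⟩
      (by simpa [Real] using ⟨h2, h3⟩) N hN hfin
  · apply two
    subst e0 e1
    have := square c c' [s2, s3] 1 rfl (c'.τ (c.τ x)) ⟨h2, h3, trivial⟩
      (by simpa [Real] using ⟨h4, h5⟩) N hN hfin
    simpa using this
  · apply two
    subst e0 e1
    have := square c c' [s4, s5] 1 rfl (c'.τ (c.τ (c'.τ (c.τ x)))) ⟨h4, h5, trivial⟩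
      (by simpa [Real] using ⟨h6, h7⟩) N hN hfin
    simpa using this
  · subst e0 e1 e2 e3
    exact square c c' [s0, s1, s2, s3] 2 rfl x ⟨h0, h1, h2, h3, trivial⟩
      (by simpa [Real, pow_two] using ⟨h4, h5, h6, h7⟩) N hN hfin

theorem periodic (c c' : CT) (N : ℕ) (hN : 0 < N) (hfin : (c'.τ * c.τ) ^ N = 1) (x : ℤ) :
    ∃ j, 0 < j ∧ j ≤ 15 ∧ ((c'.τ * c.τ) ^ j) x = x := by
  have hfin' : (c.τ * c'.τ) ^ N = 1 := by
    have : c.τ * c'.τ = (c'.τ * c.τ)⁻¹ := by
      rw [mul_inv_rev, inv_eq_of_mul_eq_one_left c.mul_self,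
        inv_eq_of_mul_eq_one_left c'.mul_self]
    rw [this, inv_pow, hfin, inv_one]
  rcases short c c' N hN hfin x with ⟨j, hj, h1⟩ | h1
  · rcases short c' c N hN hfin' x with ⟨l, hl, h2⟩ | h2
    · have h3 := path_end j c c' x h1
      have h4 := path_end l c' c x h2
      refine ⟨l + 1 + j, by omega, by omega, ?_⟩
      rw [pow_add, pow_add, pow_one, Equiv.Perm.mul_apply, Equiv.Perm.mul_apply, ← h3,
        Equiv.Perm.mul_apply, c.invol, ← Equiv.Perm.mul_apply, swap_pow, Equiv.Perm.mul_apply,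
        ← h4, c'.invol]
    · refine ⟨2, by omega, by omega, ?_⟩
      have : c.τ * c'.τ = (c'.τ * c.τ)⁻¹ := by
        rw [mul_inv_rev, inv_eq_of_mul_eq_one_left c.mul_self,
          inv_eq_of_mul_eq_one_left c'.mul_self]
      rw [this, inv_pow, Equiv.Perm.inv_eq_iff_eq] at h2
      exact h2.symm
  · exact ⟨2, by omega, by omega, h1⟩

theorem dvd_bound (c c' : CT) (N : ℕ) (hN : 0 < N) (hfin : (c'.τ * c.τ) ^ N = 1) :
    orderOf (c'.τ * c.τ) ∣ Nat.factorial 15 := by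
  apply orderOf_dvd_of_pow_eq_one
  ext x
  obtain ⟨j, hj, hj', hx⟩ := periodic c c' N hN hfin x
  obtain ⟨q, hq⟩ := Nat.dvd_factorial hj hj'
  rw [hq, pow_mul]
  have : ∀ q : ℕ, (((c'.τ * c.τ) ^ j) ^ q) x = x := by
    intro q
    induction q with
    | zero => rfl
    | succ q ih => rw [pow_succ, Equiv.Perm.mul_apply, hx, ih]
  rw [this]
  rfl

/-- **The set of the finite orders of products of two class transpositions is finite.** -/
theorem result : {n : ℕ | 0 < n ∧ ∃ (r₁ m₁ r₂ m₂ s₁ l₁ s₂ l₂ : ℤ) (τ τ' : Equiv.Perm ℤ),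
    IsClassTransposition r₁ m₁ r₂ m₂ τ ∧ IsClassTransposition s₁ l₁ s₂ l₂ τ' ∧
    orderOf (τ * τ') = n}.Finite := by
  apply Set.Finite.subset (Finset.finite_toSet (Nat.divisors (Nat.factorial 15)))
  rintro n ⟨hn, r₁, m₁, r₂, m₂, s₁, l₁, s₂, l₂, τ, τ', h1, h2, h3⟩
  obtain ⟨c', rfl⟩ := exists_ct h1
  obtain ⟨c, rfl⟩ := exists_ct h2
  have h4 : (c'.τ * c.τ) ^ n = 1 := by rw [← h3]; exact pow_orderOf_eq_one _
  have h5 := dvd_bound c c' n hn h4
  rw [h3] at h5
  simp only [Finset.mem_coe, Nat.mem_divisors]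
  exact ⟨h5, (Nat.factorial_pos 15).ne'⟩

end Pool.Agent.Results.MP_0fcb7f_al.FiniteOrders
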